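import Pool.Agent.RNM.Main
import Pool.Agent.Rnr.NT
import Pool.Agent.QNM.Bridge

/-!
# The smooth part of a primitive root modulo every prime, in deterministic polynomial time

For every `K` a Turing machine computes in polynomial time, for every prime `p`, a residue whose order
is the `K`-smooth part of `p - 1`; in particular it is no `r`-th power modulo `p` for the primes
`r ≤ K` which divide `p - 1`.
-/

set_option autoImplicit false

namespace Pool.Agent.Results.MP_18a8a6_lc.PolyTimeSmoothPart

/-- For every `K` there is a function `f` from natural numbers to natural numbers, computed by a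
deterministic Turing machine in polynomial time (input and output in binary), such that for every
prime `p` the number `f p` is smaller than `p`, its order modulo `p` is the product of the powers
`r ^ v_r (p - 1)` over the primes `r ≤ K`, and it is no `r`-th power modulo `p` for the primes
`r ≤ K` which divide `p - 1`. -/
theorem result (K : ℕ) : ∃ f : ℕ → ℕ,
    Nonempty (Turing.TM2ComputableInPolyTime Nat.bits Nat.bits f) ∧
    ∀ p : ℕ, p.Prime → f p < p ∧
      orderOf ((f p : ℕ) : ZMod p) = ∏ r ∈ Nat.primesLE K, r ^ (p - 1).factorization r ∧
      ∀ r : ℕ, r.Prime → r ≤ K → r ∣ p - 1 → ∀ y : ZMod p, y ^ r ≠ ((f p : ℕ) : ZMod p) :=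
  Pool.Agent.RNM.smooth (fun r hr => Pool.Agent.RNM.res_all
    (Pool.Agent.QNM.small_of_small' Pool.Agent.QNM.small')
    (fun r hr hr2 => Pool.Agent.Rnr.smallR_of_NTR r hr (Pool.Agent.Rnr.ntr r hr hr2)) r hr) K

end Pool.Agent.Results.MP_18a8a6_lc.PolyTimeSmoothPart
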