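import Pool.Agent.LHf.Fin

/-!
The nonzero residues `x + y r` modulo `p`, `r ^ 2 = d`, `|x|, |y|, d ≤ B`, with
`B ≥ exp (C √(log p log log p))`, generate: every nonzero residue is a quotient of two products of
at most `C (1 + log p / log B)` of them.
-/

set_option autoImplicit false

namespace Pool.Agent.Results.MP_18a8a6_lc.SmallQuadraticGenerators

open Pool.Agent.LHf

/-- the set of the units `x + y r` with `|x|, |y| ≤ B`, `r ^ 2 = d`, `1 ≤ d ≤ B`, has at most
`18 B ^ 3` elements -/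
theorem card_le (p : ℕ) [Fact p.Prime] (B : ℕ) (hB : 1 ≤ B) : (SB p B).ncard ≤ 18 * B ^ 3 := by
  classical
  -- the roots `r`, chosen by a sign
  have h1 : ∀ d : ℕ, ∃ r : Bool → ZMod p, ∀ x : ZMod p, x ^ 2 = (d : ZMod p) → ∃ b, x = r b := by
    intro d
    by_cases h : ∃ x : ZMod p, x ^ 2 = (d : ZMod p)
    · obtain ⟨x, hx⟩ := h
      refine ⟨fun b => if b then x else -x, fun y hy => ?_⟩
      have h2 : y ^ 2 = x ^ 2 := by rw [hy, hx]
      rcases sq_eq_sq_iff_eq_or_eq_neg.1 h2 with h3 | h3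
      · exact ⟨true, by simp [h3]⟩
      · exact ⟨false, by simp [h3]⟩
    · exact ⟨fun _ => 0, fun x hx => absurd ⟨x, hx⟩ h⟩
  choose r hr using h1
  set T : Finset (ℕ × Bool × ℤ × ℤ) := (Finset.Icc 1 B) ×ˢ (Finset.univ) ×ˢ
    (Finset.Icc (-(B : ℤ)) B) ×ˢ (Finset.Icc (-(B : ℤ)) B) with hT
  set f : ℕ × Bool × ℤ × ℤ → ZMod p := fun t => (t.2.2.1 : ZMod p) + (t.2.2.2 : ZMod p) * r t.1 t.2.1
    with hf
  have h3 : ((fun u : (ZMod p)ˣ => (u : ZMod p)) '' (SB p B)) ⊆ (T.image f : Set (ZMod p)) := by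
    rintro _ ⟨u, ⟨d, s, x, y, ⟨hd1, hd2⟩, hs, hx, hy, hu⟩, rfl⟩
    obtain ⟨b, hb⟩ := hr d s hs
    rw [Finset.coe_image]
    refine ⟨(d, b, x, y), ?_, ?_⟩
    · simp only [hT, Finset.coe_product, Set.mem_prod, Finset.mem_coe, Finset.mem_Icc,
        Finset.mem_univ]
      refine ⟨⟨hd1, hd2⟩, trivial, ⟨by omega, by omega⟩, by omega, by omega⟩
    · simp only [hf]
      rw [hu, hb]
  have h4 : (SB p B).ncard = ((fun u : (ZMod p)ˣ => (u : ZMod p)) '' (SB p B)).ncard :=
    (Set.ncard_image_of_injective _ Units.val_injective).symm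
  rw [h4]
  refine (Set.ncard_le_ncard h3 (Finset.finite_toSet _)).trans ?_
  rw [Set.ncard_coe_finset]
  refine Finset.card_image_le.trans ?_
  rw [hT, Finset.card_product, Finset.card_product, Finset.card_product, Nat.card_Icc,
    Finset.card_univ, Fintype.card_bool, Int.card_Icc]
  have h5 : ((B : ℤ) + 1 - -(B : ℤ)).toNat = 2 * B + 1 := by omega
  rw [h5]
  have h6 : 2 * B + 1 ≤ 3 * B := by omega
  calc (B + 1 - 1) * (2 * ((2 * B + 1) * (2 * B + 1)))
      ≤ B * (2 * ((3 * B) * (3 * B))) := by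
        rw [Nat.add_sub_cancel]
        gcongr
    _ = 18 * B ^ 3 := by ring

/-- There is a `C > 0` such that for every prime `p ≥ 3` and every
`B ≥ exp (C √(log p log log p))` the set `S` of all nonzero residues `x + y r` with integers
`|x|, |y| ≤ B` and `r ^ 2 = d`, `1 ≤ d ≤ B`, has at most `18 B ^ 3` elements, and every nonzero
residue `g` is a quotient of two products of at most `C (1 + log p / log B)` elements of `S`; in
particular `S` generates the multiplicative group and contains, for every prime `q` dividing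
`p - 1`, an element which is not a `q`-th power. -/
theorem result : ∃ C : ℝ, 0 < C ∧ ∀ (p : ℕ) [Fact p.Prime], 3 ≤ p → ∀ B : ℕ,
    Real.exp (C * Real.sqrt (Real.log p * Real.log (Real.log p))) ≤ B →
    ∀ S : Set (ZMod p)ˣ, S = SB p B →
      S.ncard ≤ 18 * B ^ 3 ∧
      (∀ g : (ZMod p)ˣ, ∃ k : ℕ, (k : ℝ) ≤ C * (1 + Real.log p / Real.log B) ∧
        ∃ s t : Fin k → (ZMod p)ˣ, (∀ i, s i ∈ S ∧ t i ∈ S) ∧ g * ∏ i, t i = ∏ i, s i) ∧
      Subgroup.closure S = ⊤ ∧
      ∀ q : ℕ, q.Prime → q ∣ p - 1 → ∃ u ∈ S, ∀ v : (ZMod p)ˣ, v ^ q ≠ u := by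
  classical
  obtain ⟨C, hC, h⟩ := fin
  refine ⟨C, hC, fun p hp hp3 B hB S hS => ?_⟩
  have hB1 : 1 ≤ B := by
    rcases Nat.eq_zero_or_pos B with h0 | h0
    · rw [h0, Nat.cast_zero] at hB
      exact absurd hB (not_le.2 (Real.exp_pos _))
    · exact h0
  have h4 : ∀ g : (ZMod p)ˣ, ∃ k : ℕ, (k : ℝ) ≤ C * (1 + Real.log p / Real.log B) ∧
      ∃ s t : Fin k → (ZMod p)ˣ, (∀ i, s i ∈ S ∧ t i ∈ S) ∧ g * ∏ i, t i = ∏ i, s i := by
    intro g
    obtain ⟨k, hk, s, t, hs, ht, hg⟩ := h p hp3 B hB g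
    refine ⟨k, hk, s, t, fun i => ?_, ?_⟩
    · rw [hS]
      exact ⟨hs i, ht i⟩
    · rw [hg, inv_mul_cancel_right]
  refine ⟨by rw [hS]; exact card_le p B hB1, h4, ?_, ?_⟩
  · rw [eq_top_iff]
    intro g _
    obtain ⟨k, -, s, t, hst, hg⟩ := h4 g
    have h5 : g = (∏ i, s i) * (∏ i, t i)⁻¹ := by rw [← hg, mul_inv_cancel_right]
    rw [h5]
    exact Subgroup.mul_mem _
      (Subgroup.prod_mem _ fun i _ => Subgroup.subset_closure (hst i).1)
      (Subgroup.inv_mem _ (Subgroup.prod_mem _ fun i _ => Subgroup.subset_closure (hst i).2))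
  · intro q hq hqp
    by_contra hcon
    push Not at hcon
    have hall : ∀ g : (ZMod p)ˣ, ∃ v : (ZMod p)ˣ, v ^ q = g := by
      intro g
      obtain ⟨k, -, s, t, hst, hg⟩ := h4 g
      choose v hv using fun i => hcon (s i) (hst i).1
      choose w hw using fun i => hcon (t i) (hst i).2
      refine ⟨(∏ i, v i) * (∏ i, w i)⁻¹, ?_⟩
      have h5 : g = (∏ i, s i) * (∏ i, t i)⁻¹ := by rw [← hg, mul_inv_cancel_right]
      rw [mul_pow, inv_pow, ← Finset.prod_pow, ← Finset.prod_pow, h5]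
      congr 1
      · exact Finset.prod_congr rfl fun i _ => hv i
      · congr 1
        exact Finset.prod_congr rfl fun i _ => hw i
    obtain ⟨g, hg⟩ := IsCyclic.exists_generator (α := (ZMod p)ˣ)
    obtain ⟨v, hv⟩ := hall g
    have hord : orderOf g = p - 1 := by
      rw [orderOf_eq_card_of_forall_mem_zpowers hg, Nat.card_eq_fintype_card, ZMod.card_units]
    have hp1 : 0 < p - 1 := by
      have := hp.out.two_le
      omega
    obtain ⟨m, hm⟩ := hqp
    have hm0 : 0 < m := by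
      rcases Nat.eq_zero_or_pos m with h0 | h0
      · rw [h0, mul_zero] at hm
        omega
      · exact h0
    have h5 : g ^ m = 1 := by
      rw [← hv, ← pow_mul, ← hm]
      exact ZMod.units_pow_card_sub_one_eq_one p v
    have h6 : p - 1 ∣ m := by
      rw [← hord]
      exact orderOf_dvd_of_pow_eq_one h5
    have h7 := Nat.le_of_dvd hm0 h6
    have h8 := hq.two_le
    nlinarith

end Pool.Agent.Results.MP_18a8a6_lc.SmallQuadraticGenerators
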