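import Pool.Agent.RNM.List
import Pool.Agent.Rnr.NT
import Pool.Agent.QNM.Bridge

/-!
# A polynomial time Turing machine which lists near-primitive roots

`encList` is the encoding of a list of natural numbers in binary; `Most M l P`: the list `l` is not
empty and at most the part `1 / M` of its entries fails `P`; `Nat.size p` is the number of binary
digits of `p`.
-/

set_option autoImplicit false

namespace Pool.Agent.Results.MP_18a8a6_lc.SmoothPartList

open Pool.Agent.PRT

/-- `p - 1` has at most one prime factor (of any multiplicity) above `R`. -/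
def OneBig (R p : ℕ) : Prop := ∀ q q' : ℕ, q.Prime → q'.Prime → q ∣ p - 1 → q' ∣ p - 1 →
  R < q → R < q' → q = q'

/-- With `L` the number of digits of `p`: all but at most the part `1 / L ^ c` of the entries of `l`
satisfy `P`, and if `p - 1` has at most one prime factor above `L ^ c` then also the first entry
does. -/
def Good (c p : ℕ) (l : List ℕ) (P : ℕ → Prop) : Prop :=
  Most (Nat.size p ^ c) l P ∧ (OneBig (Nat.size p ^ c) p → ∀ x ∈ l.head?, P x)

/-- For all `K`, `ε > 0` and `c` there is a function `f` from natural numbers to lists of natural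
numbers which is computed in polynomial time by a Turing machine (the input in binary), such that for
every prime `p`, with `L` the number of binary digits of `p`, all but the part `1 / L ^ c` of the
entries of `f p`, and the first one if `p - 1` has at most one prime factor above `L ^ c`,

* have an order which is divisible by the `K`-smooth part of `p - 1` and generate a subgroup of index
  less than `p ^ ε` of the multiplicative group modulo `p`;
* are primitive roots modulo `p`, if every prime factor of `p - 1` is at most `K` or at least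
  `p ^ ε`;
* are primitive roots modulo `p`, if `p` is not one of at most `2 ^ (ε L)` exceptional primes with
  `L` digits, `L` large. -/
theorem result (K : ℕ) (ε : ℝ) (hε : 0 < ε) (c : ℕ) : ∃ f : ℕ → List ℕ,
    Nonempty (Turing.TM2ComputableInPolyTime Nat.bits encList f) ∧
    (∀ p : ℕ, p.Prime → Good c p (f p)
      (fun x => (∏ r ∈ Nat.primesLE K, r ^ (p - 1).factorization r) ∣ orderOf (x : ZMod p) ∧
        (p : ℝ) - 1 < (p : ℝ) ^ ε * orderOf (x : ZMod p))) ∧
    (∀ p : ℕ, p.Prime → (∀ q : ℕ, q.Prime → q ∣ p - 1 → K < q → (p : ℝ) ^ ε ≤ q) →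
      Good c p (f p) (fun x => orderOf (x : ZMod p) = p - 1)) ∧
    ∃ L0 : ℕ, ∀ L : ℕ, L0 ≤ L → ∃ E : Finset ℕ, (E.card : ℝ) ≤ (2 : ℝ) ^ (ε * L) ∧
      ∀ p : ℕ, p.Prime → Nat.size p = L → p ∉ E →
        Good c p (f p) (fun x => orderOf (x : ZMod p) = p - 1) :=
  Pool.Agent.RNM.listK (Pool.Agent.RNM.resK (fun r hr => Pool.Agent.RNM.res_all
    (Pool.Agent.QNM.small_of_small' Pool.Agent.QNM.small')
    (fun r hr hr2 => Pool.Agent.Rnr.smallR_of_NTR r hr (Pool.Agent.Rnr.ntr r hr hr2)) r hr) K)
    ε hε c

end Pool.Agent.Results.MP_18a8a6_lc.SmoothPartList
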