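import Pool.Agent.PRL.End

/-!
# Primitive roots modulo every prime in deterministic time `exp (O (sqrt (log p * log log p)))`

`encList` is the encoding of a list of natural numbers in binary; `Most M l P`: the list `l` is not
empty and at most the part `1 / M` of its entries fails `P`; `Nat.size n` is the number of binary
digits of `n`.
-/

set_option autoImplicit false

namespace Pool.Agent.Results.MP_18a8a6_lc.SubexpRoots

open Pool.Agent.PRT

/-- `p - 1` has at most one prime factor (of any multiplicity) above `R`. -/
def OneBig (R p : ℕ) : Prop := ∀ q q' : ℕ, q.Prime → q'.Prime → q ∣ p - 1 → q' ∣ p - 1 →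
  R < q → R < q' → q = q'

/-- There are a number `C` and a deterministic Turing machine, the input a prime `p` in binary,
`n = Nat.size p` digits, whose running time is at most `2 ^ (C ([sqrt (n * size n)] + 1))`, and whose
output for every prime `p` is a list of numbers such that

* all but at most the part `2 ^ (- [sqrt (n * size n)])` of the entries are primitive roots modulo `p`;
* the first entry is a primitive root modulo `p`, if `p - 1` has at most one prime factor above
  `2 ^ [sqrt (n * size n)]`. -/
theorem result : ∃ (C : ℕ) (f : Nat.Primes → List ℕ)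
    (m : Turing.TM2ComputableInTime (fun p : Nat.Primes => Nat.bits p) encList f),
    (∀ n : ℕ, m.time n ≤ 2 ^ (C * (Nat.sqrt (n * Nat.size n) + 1))) ∧
    ∀ p : Nat.Primes,
      Most (2 ^ Nat.sqrt (Nat.size p * Nat.size (Nat.size p))) (f p)
        (fun x => orderOf (x : ZMod p) = p - 1) ∧
      (OneBig (2 ^ Nat.sqrt (Nat.size p * Nat.size (Nat.size p))) p →
        ∀ x ∈ (f p).head?, orderOf (x : ZMod p) = p - 1) := by
  obtain ⟨p0, h⟩ := PRL.outL_good
  obtain ⟨t, ht⟩ := exists_table
  obtain ⟨m, C, hm⟩ := PRL.machineL p0 t
  refine ⟨C, PRL.funL p0 t, m, hm, fun p => ?_⟩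
  have hpf : Fact (p : ℕ).Prime := ⟨p.2⟩
  rcases lt_or_ge (p : ℕ) p0 with hlt | hge
  · have hf : PRL.funL p0 t p = [t p] := by
      unfold PRL.funL PRL.outL
      rw [if_pos hlt]
    rw [hf]
    constructor
    · refine ⟨by simp, ?_⟩
      rw [List.countP_singleton]
      simp [ht p p.2]
    · intro _ x hx
      rw [List.head?_cons, Option.mem_some_iff] at hx
      rw [← hx]
      exact ht p p.2
  · exact h p hge t p0 hge

end Pool.Agent.Results.MP_18a8a6_lc.SubexpRoots
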